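import Pool.Agent.U227.MotDet
import Pool.Agent.U227.MotKim

/-!
# Which quotients detect the Kimura-finiteness of noncommutative Chow motives

Let `C` be a `ℚ`-linear symmetric monoidal category with finite direct sums and split idempotents, for
example the category of noncommutative Chow motives with rational coefficients over a field. We
assume the theorem of Kimura (and André, Kahn, O'Sullivan) that direct sums and direct summands of
finite-dimensional objects are finite-dimensional. Let a finite group `G` act on an object `M`, for
example on the noncommutative motive of a dg category on which `G` acts, and let `M/H` be the part of `M`
fixed by a subgroup `H`.

1. `M/H` is Kimura-finite if and only if no irreducible rational representation of `G` which occurs in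
   `End(M)` modulo the endomorphisms factoring through Kimura-finite objects has a nonzero vector fixed by
   `H`. So the Kimura-finiteness of all `M/H` is described by one set of irreducible representations.
2. Assume that some object is not Kimura-finite, so that the conjecture is false. Let `F` be a set of
   subgroups of the finite group `G`. The following criteria are exact:
   * the implication [if `M/D` is Kimura-finite for all `D` in `F`, then so is `M/H`] is true for all objects
     `M` with an action of `G` if and only if every irreducible rational representation of `G` with a
     nonzero vector fixed by `H` has a nonzero vector fixed by some `D` in `F`;
   * the implication [if `M/D` is Kimura-finite for all `D` in `F`, then so is `M`] is true for all objects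
     `M` with an action of `G` if and only if every nonzero irreducible rational representation of `G` has
     a nonzero vector fixed by some `D` in `F`;
   * the subgroups of prime order detect the Kimura-finiteness if and only if `G` has no irreducible rational
     representation in which the elements different from one fix only `0`, that is, if and only if `G` does
     not act freely on a sphere by an orthogonal representation.

So if there is a counterexample at all, then a purely group theoretic condition decides which families of
quotients detect counterexamples among the motives with an action of `G`.

The proof: the elements of the rational group ring whose action on `M` factors through a finite-dimensional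
object form a two-sided ideal `I`; the irreducible representations which occur are those of `ℚ[G]/I`, and
`M/H` is finite-dimensional if and only if `∑_(h ∈ H) h` is in `I`. For the converse in 2, if `N` is not
finite-dimensional and `ρ` is an irreducible representation on `V`, then `G` acts on `M = V ⊗ N` and
`M/H = V^H ⊗ N`.
-/

open CategoryTheory CategoryTheory.Limits MonoidalCategory Pool.Agent.X252.GA Pool.Agent.U227.Grp
  Pool.Agent.U227.Mot

universe v u

namespace Pool.Agent.Results.MP_6e5bed_ag.ExactDetection

/-- **Which quotients detect Kimura-finiteness.** -/
theorem result {C : Type u} [Category.{v} C] [MonoidalCategory C] [SymmetricCategory C]
    [Preadditive C] [Linear ℚ C] [IsIdempotentComplete C] [HasFiniteBiproducts C]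
    (hK : IsStable (IsKimuraFinite (C := C))) :
    (∀ (G : Type) [Group G] [Finite G] (M : C) (a : G →* End M) (H : Subgroup G),
      OnQuotient IsKimuraFinite a H ↔ NoFixed IsKimuraFinite a H) ∧
    ((∃ N : C, ¬ IsKimuraFinite N) → ∀ (G : Type) [Group G] [Finite G],
      (∀ (F : Set (Subgroup G)) (H : Subgroup G),
        Detects (IsKimuraFinite (C := C)) F H ↔ Covers F H) ∧
      (∀ F : Set (Subgroup G), DetectsAll (IsKimuraFinite (C := C)) F ↔ CoversAll F) ∧
      (DetectsAll (IsKimuraFinite (C := C)) (primeSubgroups G) ↔ ¬ FixedPointFree G)) :=
  exactLaws hK

end Pool.Agent.Results.MP_6e5bed_ag.ExactDetection
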