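import Pool.Agent.U672.NC.Main
import Pool.Agent.U672.SF.Kim

/-!
# Kimura-finiteness of dg categories glued from systems of equations

`k` is a perfect field and `K` the triangulated category of noncommutative mixed motives over `k` of
Kontsevich with rational coefficients, in the form of its standard properties (`Facts`); it contains the
category of noncommutative Chow motives. The Kimura-finite objects are stable under sums, direct factors and
tensor products (`KimuraFacts`), and the noncommutative motives of smooth proper curves are Kimura-finite.

**Theorem.** The noncommutative Chow motive of a smooth proper dg category `A` is Kimura-finite if `A` is *glued*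
(`Glued`) from Kimura-finite smooth proper dg categories and schemes which are constructed from
* systems of equations of excess at most two together with equations with independent exponents, in affine
  spaces of any dimension; for instance hypersurfaces with at most four terms, and hypersurfaces with
  affinely independent exponents;
* equations `∑ f_j (x_j) = g (y)` where the `f_j` are polynomials in separate variables, each of them
  quasi-homogeneous in at most two variables or a trilinear form with a block of at most three variables,
  and `g` is a function on an affine scheme of dimension at most one;
* schemes of dimension at most one, and smooth proper `X` with Kimura-finite `perf X`;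
by cutting and pasting, products and quotients by finite free coverings. These schemes may be singular and
not proper, and `A` need not be related to a smooth proper scheme of this kind. `A` is glued from them if its
motive is in the thick tensor triangulated subcategory which they generate: for instance if `A` has a
semi-orthogonal decomposition, or is a categorical resolution by gluing (Kuznetsov and Lunts), with such
parts. If Kimura-finiteness is true for `perf X` for all smooth proper `X` of dimension at most `N`, then the
same is true with `N` instead of one.
-/

set_option autoImplicit false

open CategoryTheory MonoidalCategory AlgebraicGeometry Pool.Agent.TH137.DG Pool.Agent.Y116.UV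
  Pool.Agent.Z125.UN Pool.Agent.U672.SF Pool.Agent.U672.NC

namespace Pool.Agent.Results.MP_6e5bed_ag.GluedCategories

universe v u

/-- The known properties: the Kimura-finite objects are stable under direct sums and direct factors
(`factor`: under direct factors of sums) and under tensor products. -/
structure KimuraFacts (K : Type u) [Category.{v} K] [MonoidalCategory K] [SymmetricCategory K]
    [Preadditive K] : Prop where
  factor : ∀ (A B S : K) (i₁ : A ⟶ S) (i₂ : B ⟶ S) (p₁ : S ⟶ A) (p₂ : S ⟶ B),
    p₁ ≫ i₁ + p₂ ≫ i₂ = 𝟙 S → IsKimura A → IsKimura B → IsKimura S
  tensor : ∀ A B : K, IsKimura A → IsKimura B → IsKimura (A ⊗ B)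

/-- **Theorem.** (1) Let `U (perf X)` be Kimura-finite for the smooth proper schemes `X` of dimension at
most one (this is known). Then `U A` is Kimura-finite for every smooth proper dg category `A` which is
glued from Kimura-finite smooth proper dg categories and schemes constructed from systems of equations of
excess at most two, sums of quasi-homogeneous polynomials in at most two variables, schemes of dimension at
most one, and smooth proper schemes `X` with Kimura-finite `U (perf X)`. (2) The same with `N` instead of
one. -/
theorem result {k : Type} [Field k] {K : Type u} [Category.{v} K] [MonoidalCategory K]
    [SymmetricCategory K] [Preadditive K] [Linear ℚ K] [Limits.HasZeroObject K] [HasShift K ℤ]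
    [∀ n : ℤ, (shiftFunctor K n).Additive] [Pretriangulated K] {D : Data k K} (hD : Facts D)
    (hK : KimuraFacts K)
    (hcurves : ∀ X, SmoothProper X → topologicalKrullDim X.left ≤ (1 : ℕ) →
      IsKimura (D.U (D.perf X))) :
    (∀ A : D.DG, Glued D 1 (fun B => IsKimura (D.U B)) A → IsKimura (D.U A)) ∧
    ∀ N : ℕ, 1 ≤ N →
      (∀ X, SmoothProper X → topologicalKrullDim X.left ≤ N → IsKimura (D.U (D.perf X))) →
      ∀ A : D.DG, Glued D N (fun B => IsKimura (D.U B)) A → IsKimura (D.U A) := by
  have key : ∀ N : ℕ, 1 ≤ N →
      (∀ X, SmoothProper X → topologicalKrullDim X.left ≤ N → IsKimura (D.U (D.perf X))) →
      ∀ A : D.DG, Glued D N (fun B => IsKimura (D.U B)) A → IsKimura (D.U A) := by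
    intro N hN h A hA
    have h1 := glued_pure hD hN h A hA
    generalize D.U A = B at h1
    induction h1 with
    | gen B hB =>
      obtain ⟨B', hB', rfl⟩ := hB
      exact hB'
    | factor A B T i₁ i₂ p₁ p₂ h _ _ h1 h2 => exact hK.factor A B T i₁ i₂ p₁ p₂ h h1 h2
    | tensor A B _ _ h1 h2 => exact hK.tensor A B h1 h2
  exact ⟨key 1 le_rfl hcurves, key⟩

end Pool.Agent.Results.MP_6e5bed_ag.GluedCategories
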