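import Pool.Agent.U226.FX.SmashK

/-!
# Kimura-finiteness of noncommutative Chow motives from a bound for the size of Grothendieck groups

Let `A` be a smooth proper dg category over a field `k` which satisfies the noncommutative sign
conjecture `C⁺` (the projector of the periodic cyclic homology to its even part is induced by a class in
`K_0 (A^op ⊗ A)_ℚ`), with nonzero periodic cyclic homology (or `TP(-)[1/p]`) of total dimension `b`. Let `𝒞` be
an ARBITRARY smooth proper dg category over `k`, `E_n = (A ⊗ A^op)^⊗n`, `B_n = 𝒞 ⊗ E_n`. Let `δ (n)` be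
the dimension of the space of the numerically trivial classes (the kernel of the Euler pairing) in
`K_0 (B_n)_ℚ` modulo the smash-nilpotent classes `α` (`α ⊗ ⋯ ⊗ α = 0` for some number of factors), a number
or infinity, and `ρ_𝒞 (n)`, `ρ (n)` the (finite) ranks of `K_0 (B_n)`, `K_0 (E_n)` modulo the kernel of the
Euler pairing.

Theorem.
(1) `δ (n) / ρ (n)` and `ρ_𝒞 (n) / ρ (n)` converge for `n → ∞`; the limits `N` and `d` are natural numbers or
infinity; `d` is at most the dimension of the cohomology of `𝒞` if `𝒞` satisfies `C⁺`. `N = 0` if and only if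
all numerically trivial classes on all `B_n` are smash-nilpotent.
(2) **If `N` is finite (for example if `δ (n) ≤ c ρ (n)` for infinitely many `n`) for ONE `𝒞` with `d > 0`, for
example `𝒞 = k`, then the noncommutative Chow motive `U(A)` is Kimura-finite, all numerically trivial classes
on all `E_n` are smash-nilpotent, and the conjecture D holds for all `E_n`.** So if `U(A)` is not
Kimura-finite then for EVERY such `𝒞` the number `δ (n)` is larger than every multiple of `ρ (n)` for large
`n`.
(3) If `2 δ (n) < ρ (n)` for one `n ≥ 128 (m + 1) ^ 2 b ^ (4 m + 12)` then all numerically trivial classes on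
`B_m` are smash-nilpotent. If this fails for `B_m` then for all those `n` also
`δ (n) ≥ b ^ (2 n) / (2 (n + 1) ^ (b ^ 2))`.

So Kimura-finiteness of `U(A)` is, for `A` with `C⁺`, a question on the size of the spaces of classes
modulo smash-nilpotence. The converse is known: if `U(A)` is Kimura-finite then `N = 0` for `𝒞 = k`, if also
the conjecture D holds for the `E_n`. It applies to `perf(X)` for all `X` for which the sign conjecture is
known (curves, surfaces, abelian varieties, complete intersections, all varieties over finite fields) and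
to semi-orthogonal components with `C⁺`. Neither duality `A ≅ A^op` nor a scheme is used.
Related: the starting result `MP_550f75_ag.ZeroOneLaw` (schemes, `𝒞` a point, smash-nilpotence only) and
`MP_550f75_ag.FixedFactorLaw`, `MP_bf8edd_ag.HomologicalLaw`.

The setting. `C` is the category `NChow(k)_ℚ` of noncommutative Chow motives, a rigid symmetric monoidal
pseudo-abelian `ℚ`-linear category with `Hom (1, U(A)) = K_0(A)_ℚ`, `T = U(A)`, `T^∨ = U(A^op)`,
`B = U(𝒞)`, `B ⊗ tp (T ⊗ T^∨) n = U(B_n)`; numerically trivial morphisms are given by the kernel of the Euler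
pairing (Marcolli, Tabuada). `R` is given by `HP` or `TP(-)[1/p]` with coefficients extended to an
algebraically closed field.

Idea of the proof. The law of the values of additive functors on the powers of an object with `C⁺`
(starting library `N64.AF`) is applied to `Y ↦ (numerically trivial / smash-nilpotent classes) (𝒞 ⊗ Y)`.
If the limit is a number `N` and `β` is a class on `B_p` with a dual class then `β ⊗ α ^ (⊗ (1 + N))` is
smash-nilpotent for numerically trivial `α`, hence so is its image `α ^ (⊗ (1 + N))`. Endomorphisms of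
`U(A)^⊗n` are classes on `E_n` (up to the order of the factors), `y ^ k` is a contraction of
`y ⊗ ⋯ ⊗ y`; so homologically trivial endomorphisms are nilpotent, and with `C⁺` the motive splits into an
even and an odd part with vanishing exterior and symmetric powers.
-/

set_option autoImplicit false

open CategoryTheory MonoidalCategory Module Filter Topology
open Pool.Agent.Y112.SR Pool.Agent.Y112.KD Pool.Agent.N64.AF Pool.Agent.U226.FX
open scoped ENNReal

namespace Pool.Agent.Results.MP_6e5bed_ag.SmallDefectKimura

universe v u w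

/-- The law for numerically trivial classes modulo smash-nilpotent classes on the products of a fixed
arbitrary `B` with the powers of `T ⊗ Tᘁ`, and Kimura-finiteness of `T`. -/
theorem result {C : Type u} [Category.{v} C] [Preadditive C] [MonoidalCategory C]
    [MonoidalPreadditive C] [SymmetricCategory C] [RightRigidCategory C]
    [Linear ℚ C] [MonoidalLinear ℚ C] [IsIdempotentComplete C]
    {K : Type w} [Field K] [IsAlgClosed K] [Algebra ℚ K] (R : SuperRealisation C K)
    (hR : IsReal ℚ R) (T : C) (hT : R.CPlus T) (hb : 0 < bt R T) (B : C) : ∃ N d : ℕ∞,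
      RatioTo ℚ (T ⊗ Tᘁ) (smashDefect ℚ B (T ⊗ Tᘁ)) N ∧
      RatioTo ℚ (T ⊗ Tᘁ) (rankSeq ℚ B (T ⊗ Tᘁ)) d ∧
      (N = 0 ↔ ∀ (n : ℕ) (α : 𝟙_ C ⟶ B ⊗ tp (T ⊗ Tᘁ) n), NumTriv α → SmashNil α) ∧
      (d = 0 ↔ ∀ (n : ℕ) (α : 𝟙_ C ⟶ B ⊗ tp (T ⊗ Tᘁ) n), NumTriv α) ∧
      (R.CPlus B → d ≤ bt R B) ∧
      (d ≠ 0 → N ≠ ⊤ → Pool.Agent.R905.IsKimuraFinite T ∧
        ∀ (n : ℕ) (α : 𝟙_ C ⟶ tp (T ⊗ Tᘁ) n), NumTriv α → SmashNil α ∧ R.H.map α = 0) ∧
      ∀ (m n : ℕ) (α : 𝟙_ C ⟶ B ⊗ tp (T ⊗ Tᘁ) m), NumTriv α → ¬ SmashNil α →
        128 * (m + 1) ^ 2 * bt R T ^ (4 * m + 12) ≤ n →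
          (numRank ℚ (tp (T ⊗ Tᘁ) n) : ℕ∞) ≤ 2 * smashDefect ℚ B (T ⊗ Tᘁ) n ∧
          ((bt R T ^ (2 * n) : ℕ) : ℕ∞) ≤
            (2 * (n + 1) ^ (bt R T ^ 2) : ℕ) * smashDefect ℚ B (T ⊗ Tᘁ) n :=
  ns_fixed_nc hR hT hb B

end Pool.Agent.Results.MP_6e5bed_ag.SmallDefectKimura
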