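import Pool.Agent.U436.WT.Main

/-!
# Weighted diagonal complete intersection stacks and their twisted sectors

Let `k` be an algebraically closed field, `p 1, …, p N ∈ k` distinct, `c 1, …, c N ∈ k` nonzero,
`n 1, …, n N ≥ 1` ARBITRARY exponents which are invertible in `k`, `D` a common multiple of the exponents which is
invertible in `k`, and `E i = D / n i`. Let `U` be the set of the nonzero solutions of the `m` equations

  `∑ i, c i * p i ^ j * x i ^ n i = 0`, `0 ≤ j < m`,

and `𝒳 = [U / 𝔾_m]` the complete intersection in the weighted projective stack with the weights `E i`.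

(1) The Jacobian matrix has rank `m` at all points of `U`: `𝒳` is a smooth and proper Deligne-Mumford stack.

(2) The points of `𝒳` which are fixed by a diagonal automorphism `h` (in particular by an element of the stabilizers,
`h = 1`) form the union of the coordinate strata `S_t = {i | h i = t ^ E i}`, and each coordinate stratum is again
a variety of the same kind, given by the `p i`, `c i`, `n i` with `i ∈ S_t`; it is empty if it has at most `m`
coordinates.

(3) If the stratum has `m + d + 1` coordinates, `d ≥ 1`, then the coordinatewise product, with suitable nonzero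
factors `lam i`, maps the `d`-th power of the curve `C` (with the same exponents, given by
`∑ i, p i ^ j / ∏ l ≠ i, (p i - p l) * y i ^ n i = 0`, `j < m + d - 1`) onto the stratum, and its fibres are the
orbits of a finite group.

So all the twisted sectors of `𝒳`, and of the quotient stacks of `𝒳` by finite groups of diagonal automorphisms,
are finite quotients of powers of curves. By the theorem of Tabuada and Van den Bergh on the noncommutative motives
of quotient stacks, and Kimura's theorem on curves, `perf_dg(𝒳)` is Kimura-finite: it is an admissible subcategory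
of `perf_dg` of the iterated root stack `[X_D / ∏ μ_(E i)]`, `X_D` the smooth projective variety of this kind with
all exponents equal to `D` (not formalised).
-/

set_option autoImplicit false

namespace Pool.Agent.Results.MP_6e5bed_ag.WeightedStacks

open Pool.Agent.U436.WT Finset
open Pool.Agent.U436.HP (wt)

variable {k : Type} [Field k] {N : ℕ}

/-- The Jacobian matrix has rank `m` at all nonzero solutions. -/
def Smooth (n : Fin N → ℕ) (m : ℕ) (p c : Fin N → k) : Prop :=
  ∀ x ∈ pts n m p c, LinearIndependent k fun (j : Fin m) (i : Fin N) =>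
    MvPolynomial.eval x (MvPolynomial.pderiv i (form n p c j))

/-- The vectors `x`, `x'` are the same point of the weighted projective space. -/
def Same (E : Fin N → ℕ) (x x' : Fin N → k) : Prop := ∃ t : k, t ≠ 0 ∧ ∀ i, x' i = t ^ E i * x i

/-- The `d`-tuples `y`, `y'` of points are in the same orbit of the finite group generated by the permutations and
the tuples of vectors of roots of unity whose product is a scalar. -/
def SameOrbit (n E : Fin N → ℕ) (D : ℕ) {d : ℕ} (y y' : Fin d → Fin N → k) : Prop :=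
  ∃ (σ : Equiv.Perm (Fin d)) (ζ : Fin d → Fin N → k) (τ : k), (∀ j i, ζ j i ^ n i = 1) ∧ τ ^ D = 1 ∧
    (∀ i, ∏ j, ζ j i = τ ^ E i) ∧ ∀ j, Same E (fun i => ζ j i * y (σ j) i) (y' j)

/-- The variety is the quotient of the `d`-th power of the (smooth) curve. -/
def IsQuotient (n E : Fin N → ℕ) (D m d : ℕ) (p c : Fin N → k) : Prop :=
  Smooth n (N - 2) p (wt p) ∧ ∃ lam : Fin N → k, (∀ i, lam i ≠ 0) ∧
    (∀ y : Fin d → Fin N → k, (∀ j, y j ∈ curve n p) → (fun i => lam i * ∏ j, y j i) ∈ pts n m p c) ∧
    (∀ x ∈ pts n m p c, ∃ y : Fin d → Fin N → k, (∀ j, y j ∈ curve n p) ∧ x = fun i => lam i * ∏ j, y j i) ∧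
    (∀ y y' : Fin d → Fin N → k, (∀ j, y j ∈ curve n p) → (∀ j, y' j ∈ curve n p) →
      (Same E (fun i => lam i * ∏ j, y j i) (fun i => lam i * ∏ j, y' j i) ↔ SameOrbit n E D y y'))

theorem result (k : Type) [Field k] [IsAlgClosed k] (N m D : ℕ) (n E : Fin N → ℕ) (hn : ∀ i, (n i : k) ≠ 0)
    (hD : D ≠ 0) (hE : ∀ i, n i * E i = D) (p c : Fin N → k) (hp : Function.Injective p) (hc : ∀ i, c i ≠ 0) :
    (∀ (h x : Fin N → k) (s : k), (∀ i, h i * x i = s ^ E i * x i) ↔ ∀ i, h i ≠ s ^ E i → x i = 0) ∧
    ∀ (N' : ℕ) (g : Fin N' → Fin N), Function.Injective g →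
      (∀ x : Fin N' → k, Function.extend g x 0 ∈ pts n m p c ↔ x ∈ pts (n ∘ g) m (p ∘ g) (c ∘ g)) ∧
      (N' ≤ m → pts (n ∘ g) m (p ∘ g) (c ∘ g) = ∅) ∧
      ∀ d : ℕ, m + d + 1 = N' → Smooth (n ∘ g) m (p ∘ g) (c ∘ g) ∧
        (1 ≤ d → IsQuotient (n ∘ g) (E ∘ g) D m d (p ∘ g) (c ∘ g)) := by
  have hn0 : ∀ i, n i ≠ 0 := fun i h => hn i (by rw [h]; simp)
  refine ⟨fun h x s => ⟨fun h1 i hi => ?_, fun h1 i => ?_⟩, fun N' g hg => ⟨fun x => stratum hn0 p c hg x,
    fun hN' => pts_eq_empty (fun i => hn0 (g i)) (hp.comp hg) (fun i => hc (g i)) hN', fun d hd => ⟨?_, ?_⟩⟩⟩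
  · by_contra hx
    exact hi (mul_right_cancel₀ hx (h1 i))
  · by_cases h2 : h i = s ^ E i
    · rw [h2]
    · rw [h1 i h2, mul_zero, mul_zero]
  · exact fun x hx => smooth (fun i => hn (g i)) (hp.comp hg) (fun i => hc (g i)) hd hx
  · intro hd1
    obtain ⟨lam, hlam0, hlam⟩ := exists_lam (fun i => hn0 (g i)) (hp.comp hg) (fun i => hc (g i))
    refine ⟨fun x hx => smooth (d := 1) (fun i => hn (g i)) (hp.comp hg)
      (fun i => Pool.Agent.U436.HP.wt_ne_zero (hp.comp hg) i) (by omega) hx, lam, hlam0,
      fun y hy => prod_mem (fun i => hn0 (g i)) (hp.comp hg) hd1 hd hlam y hy, fun x hx => ?_,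
      fun y y' hy hy' => ?_⟩
    · obtain ⟨y, h1, h2⟩ := exists_prod (fun i => hn0 (g i)) (hp.comp hg) (fun i => hc (g i)) hd1 hd hlam hx
      exact ⟨y, h1, funext h2⟩
    · have key := prod_eq_iff (fun i => hn0 (g i)) hD (fun i => hE (g i)) (hp.comp hg) hd1 hd hlam0 hy hy'
      unfold Same
      refine key.trans ?_
      unfold SameOrbit Same
      constructor
      · rintro ⟨σ, ζ, τ, κ, h1, h2, h3, h4, h5⟩
        exact ⟨σ, ζ, τ, h1, h2, h3, fun j => ⟨κ j, h4 j, h5 j⟩⟩
      · rintro ⟨σ, ζ, τ, h1, h2, h3, h4⟩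
        choose κ h5 h6 using h4
        exact ⟨σ, ζ, τ, κ, h1, h2, h3, h5, h6⟩

end Pool.Agent.Results.MP_6e5bed_ag.WeightedStacks
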